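import Pool.Agent.Q194.TwoBump.Defs

set_option autoImplicit false

namespace Pool.Agent.Q194.TwoBump

open Filter Topology Set

/-- `P x = x₊ ^ (α / (α - 1))`. -/
noncomputable def P (α x : ℝ) : ℝ := (max x 0) ^ (α / (α - 1))

/-- `Q x = (1 + α P x) ^ ((α - 1) / α)`. -/
noncomputable def Q (α x : ℝ) : ℝ := (1 + α * P α x) ^ ((α - 1) / α)

/-- `g x = x₊ ^ (1 / (α - 1)) (1 + α P x) ^ (- 1 / α)`. -/
noncomputable def g (α x : ℝ) : ℝ := (max x 0) ^ (1 / (α - 1)) * (1 + α * P α x) ^ (-(1 / α))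

variable {α : ℝ}

lemma P_nonneg (α x : ℝ) : 0 ≤ P α x := Real.rpow_nonneg (le_max_right _ _) _

lemma one_add_pos (hα : 1 < α) (x : ℝ) : 0 < 1 + α * P α x := by
  have := P_nonneg α x
  have : 0 ≤ α * P α x := mul_nonneg (by linarith) this
  linarith

lemma P_of_nonpos (hα : 1 < α) {x : ℝ} (hx : x ≤ 0) : P α x = 0 := by
  unfold P
  rw [max_eq_right hx, Real.zero_rpow]
  have : 0 < α / (α - 1) := div_pos (by linarith) (by linarith)
  exact this.ne'

lemma P_of_nonneg {x : ℝ} (hx : 0 ≤ x) : P α x = x ^ (α / (α - 1)) := by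
  unfold P
  rw [max_eq_left hx]

lemma Q_of_nonpos (hα : 1 < α) {x : ℝ} (hx : x ≤ 0) : Q α x = 1 := by
  unfold Q
  rw [P_of_nonpos hα hx]
  simp

lemma Q_pos (hα : 1 < α) (x : ℝ) : 0 < Q α x := Real.rpow_pos_of_pos (one_add_pos hα x) _

lemma hasDerivAt_P (hα : 1 < α) (x : ℝ) :
    HasDerivAt (P α) (α / (α - 1) * (max x 0) ^ (1 / (α - 1))) x := by
  have h1 : (0:ℝ) < α - 1 := by linarith
  have ha : 1 < α / (α - 1) := by rw [lt_div_iff₀ h1]; linarith
  have hae : α / (α - 1) - 1 = 1 / (α - 1) := by field_simp; ring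
  have hpos : ∀ y : ℝ, HasDerivAt (fun z : ℝ => z ^ (α / (α - 1)))
      (α / (α - 1) * y ^ (1 / (α - 1))) y := by
    intro y
    have := Real.hasDerivAt_rpow_const (x := y) (p := α / (α - 1)) (Or.inr ha.le)
    rwa [hae] at this
  have hne : (1 / (α - 1)) ≠ 0 := by positivity
  rcases lt_trichotomy x 0 with hx | hx | hx
  · have : (P α) =ᶠ[𝓝 x] fun _ => 0 := by
      filter_upwards [Iio_mem_nhds hx] with y hy
      exact P_of_nonpos hα (le_of_lt hy)
    rw [max_eq_right hx.le, Real.zero_rpow hne, mul_zero]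
    exact (hasDerivAt_const x (0:ℝ)).congr_of_eventuallyEq this
  · subst hx
    rw [max_self, Real.zero_rpow hne, mul_zero, ← hasDerivWithinAt_univ, ← Iic_union_Ici (a := (0:ℝ))]
    apply HasDerivWithinAt.union
    · exact (hasDerivWithinAt_const (0:ℝ) (Iic 0) (0:ℝ)).congr
        (fun y hy => P_of_nonpos hα hy) (P_of_nonpos hα le_rfl)
    · have := (hpos 0).hasDerivWithinAt (s := Ici (0:ℝ))
      rw [Real.zero_rpow hne, mul_zero] at this
      exact this.congr (fun y hy => P_of_nonneg hy) (P_of_nonneg le_rfl)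
  · have : (P α) =ᶠ[𝓝 x] fun z => z ^ (α / (α - 1)) := by
      filter_upwards [Ioi_mem_nhds hx] with y hy
      exact P_of_nonneg (le_of_lt hy)
    rw [max_eq_left hx.le]
    exact (hpos x).congr_of_eventuallyEq this

lemma hasDerivAt_Q (hα : 1 < α) (x : ℝ) : HasDerivAt (Q α) (α * g α x) x := by
  have h1 : (0:ℝ) < α - 1 := by linarith
  have h0 : (0:ℝ) < α := by linarith
  have hp := one_add_pos hα x
  have h2 : HasDerivAt (fun y => 1 + α * P α y)
      (α * (α / (α - 1) * (max x 0) ^ (1 / (α - 1)))) x :=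
    ((hasDerivAt_P hα x).const_mul α).const_add 1
  have h3 := h2.rpow_const (p := (α - 1) / α) (Or.inl hp.ne')
  have he : (α - 1) / α - 1 = -(1 / α) := by field_simp; ring
  rw [he] at h3
  have h4 : α * (α / (α - 1) * (max x 0) ^ (1 / (α - 1))) * ((α - 1) / α) *
      (1 + α * P α x) ^ (-(1 / α)) = α * g α x := by
    unfold g
    field_simp
  rw [h4] at h3
  exact h3

lemma continuous_P (hα : 1 < α) : Continuous (P α) :=
  continuous_iff_continuousAt.2 fun x => (hasDerivAt_P hα x).continuousAt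

lemma continuous_Q (hα : 1 < α) : Continuous (Q α) :=
  continuous_iff_continuousAt.2 fun x => (hasDerivAt_Q hα x).continuousAt

lemma continuous_g (hα : 1 < α) : Continuous (g α) := by
  have h1 : (0:ℝ) < α - 1 := by linarith
  unfold g
  apply Continuous.mul
  · exact (continuous_id.max continuous_const).rpow_const (fun x => Or.inr (by positivity))
  · exact (continuous_const.add (continuous_const.mul (continuous_P hα))).rpow_const
      (fun x => Or.inl (one_add_pos hα x).ne')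

lemma g_nonneg (hα : 1 < α) (x : ℝ) : 0 ≤ g α x :=
  mul_nonneg (Real.rpow_nonneg (le_max_right _ _) _) (Real.rpow_nonneg (one_add_pos hα x).le _)

lemma g_of_nonpos (hα : 1 < α) {x : ℝ} (hx : x ≤ 0) : g α x = 0 := by
  have h1 : (0:ℝ) < α - 1 := by linarith
  unfold g
  rw [max_eq_right hx, Real.zero_rpow (by positivity), zero_mul]

lemma g_pos (hα : 1 < α) {x : ℝ} (hx : 0 < x) : 0 < g α x := by
  unfold g
  rw [max_eq_left hx.le]
  exact mul_pos (Real.rpow_pos_of_pos hx _) (Real.rpow_pos_of_pos (one_add_pos hα x) _)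

/-- `g ^ α = P / (1 + α P)`. -/
lemma g_rpow (hα : 1 < α) (x : ℝ) : (g α x) ^ α = P α x / (1 + α * P α x) := by
  have h1 : (0:ℝ) < α - 1 := by linarith
  have h0 : (0:ℝ) < α := by linarith
  have hp := one_add_pos hα x
  unfold g
  rw [Real.mul_rpow (Real.rpow_nonneg (le_max_right _ _) _) (Real.rpow_nonneg hp.le _),
    ← Real.rpow_mul (le_max_right _ _), ← Real.rpow_mul hp.le]
  have e1 : 1 / (α - 1) * α = α / (α - 1) := by ring
  have e2 : -(1 / α) * α = -1 := by field_simp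
  rw [e1, e2, Real.rpow_neg_one]
  rfl

lemma g_lt (hα : 1 < α) (x : ℝ) : g α x < α ^ (-(1 / α)) := by
  have h0 : (0:ℝ) < α := by linarith
  have hp := one_add_pos hα x
  have h1 : (g α x) ^ α < (α ^ (-(1 / α))) ^ α := by
    rw [g_rpow hα, ← Real.rpow_mul h0.le]
    have e2 : -(1 / α) * α = -1 := by field_simp
    rw [e2, Real.rpow_neg_one, div_lt_iff₀ hp, mul_add, ← mul_assoc, inv_mul_cancel₀ h0.ne', one_mul,
      mul_one]
    have : 0 < α⁻¹ := inv_pos.2 h0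
    linarith
  exact lt_of_not_ge fun h => absurd (Real.rpow_le_rpow (Real.rpow_nonneg h0.le _) h h0.le)
    (not_le.2 h1)

/-- `x g(x) = P(x) (1 + α P(x)) ^ (-1/α)`. -/
lemma mul_g (hα : 1 < α) (x : ℝ) : x * g α x = P α x * (1 + α * P α x) ^ (-(1 / α)) := by
  have h1 : (0:ℝ) < α - 1 := by linarith
  rcases le_or_gt x 0 with hx | hx
  · rw [g_of_nonpos hα hx, P_of_nonpos hα hx]; simp
  · unfold g
    rw [P_of_nonneg hx.le, max_eq_left hx.le, ← mul_assoc]
    congr 1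
    have : α / (α - 1) = 1 + 1 / (α - 1) := by field_simp; ring
    rw [this, Real.rpow_add hx, Real.rpow_one]

/-- `(1 + α P) ^ (-1/α) = Q / (1 + α P)`. -/
lemma rpow_eq_Q_div (hα : 1 < α) (x : ℝ) :
    (1 + α * P α x) ^ (-(1 / α)) = Q α x / (1 + α * P α x) := by
  have h0 : (0:ℝ) < α := by linarith
  have hp := one_add_pos hα x
  have : -(1 / α) = (α - 1) / α - 1 := by field_simp; ring
  rw [this, Real.rpow_sub_one hp.ne']
  rfl

/-- The scaled position. -/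
noncomputable def tau (α ρ₂ m₁ t ρ : ℝ) : ℝ := (ρ - ρ₂) / (α * m₁ * t ^ (1 / α))

/-- The mass function of the fan, continued by `m₁` to the left of `ρ₂`. -/
noncomputable def F (α ρ₂ m₁ t ρ : ℝ) : ℝ := m₁ * Q α (tau α ρ₂ m₁ t ρ)

/-- The density of the fan, continued by `0` to the left of `ρ₂`. -/
noncomputable def U (α ρ₂ m₁ t ρ : ℝ) : ℝ := t ^ (-(1 / α)) * g α (tau α ρ₂ m₁ t ρ)

/-- The mass function of the vortex. -/
noncomputable def L (α ρ₁ t ρ : ℝ) : ℝ := (α * t) ^ (-(1 / α)) * (ρ - ρ₁)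

section
variable {ρ₁ ρ₂ m₁ t : ℝ}

lemma tau_nonpos (hα : 1 < α) (hm : 0 < m₁) (ht : 0 < t) {ρ : ℝ} (h : ρ ≤ ρ₂) :
    tau α ρ₂ m₁ t ρ ≤ 0 := by
  unfold tau
  have : 0 < α * m₁ * t ^ (1 / α) :=
    mul_pos (mul_pos (by linarith) hm) (Real.rpow_pos_of_pos ht _)
  exact div_nonpos_of_nonpos_of_nonneg (by linarith) this.le

lemma tau_pos (hα : 1 < α) (hm : 0 < m₁) (ht : 0 < t) {ρ : ℝ} (h : ρ₂ < ρ) :
    0 < tau α ρ₂ m₁ t ρ := by
  unfold tau
  have : 0 < α * m₁ * t ^ (1 / α) :=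
    mul_pos (mul_pos (by linarith) hm) (Real.rpow_pos_of_pos ht _)
  exact div_pos (by linarith) this

lemma F_of_le (hα : 1 < α) (hm : 0 < m₁) (ht : 0 < t) {ρ : ℝ} (h : ρ ≤ ρ₂) :
    F α ρ₂ m₁ t ρ = m₁ := by
  unfold F
  rw [Q_of_nonpos hα (tau_nonpos hα hm ht h), mul_one]

lemma U_of_le (hα : 1 < α) (hm : 0 < m₁) (ht : 0 < t) {ρ : ℝ} (h : ρ ≤ ρ₂) :
    U α ρ₂ m₁ t ρ = 0 := by
  unfold U
  rw [g_of_nonpos hα (tau_nonpos hα hm ht h), mul_zero]

lemma U_pos (hα : 1 < α) (hm : 0 < m₁) (ht : 0 < t) {ρ : ℝ} (h : ρ₂ < ρ) :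
    0 < U α ρ₂ m₁ t ρ :=
  mul_pos (Real.rpow_pos_of_pos ht _) (g_pos hα (tau_pos hα hm ht h))

lemma U_nonneg (hα : 1 < α) (ht : 0 < t) (ρ : ℝ) : 0 ≤ U α ρ₂ m₁ t ρ :=
  mul_nonneg (Real.rpow_nonneg ht.le _) (g_nonneg hα _)

lemma U_lt (hα : 1 < α) (ht : 0 < t) (ρ : ℝ) : U α ρ₂ m₁ t ρ < (α * t) ^ (-(1 / α)) := by
  unfold U
  rw [Real.mul_rpow (by linarith) ht.le, mul_comm]
  exact mul_lt_mul_of_pos_right (g_lt hα _) (Real.rpow_pos_of_pos ht _)

lemma hasDerivAt_F (hα : 1 < α) (hm : 0 < m₁) (ht : 0 < t) (ρ : ℝ) :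
    HasDerivAt (F α ρ₂ m₁ t) (U α ρ₂ m₁ t ρ) ρ := by
  have h0 : (0:ℝ) < α := by linarith
  have ht' : 0 < t ^ (1 / α) := Real.rpow_pos_of_pos ht _
  have h1 : HasDerivAt (tau α ρ₂ m₁ t) (1 / (α * m₁ * t ^ (1 / α))) ρ :=
    ((hasDerivAt_id ρ).sub_const ρ₂).div_const _
  have h2 := ((hasDerivAt_Q hα (tau α ρ₂ m₁ t ρ)).comp ρ h1).const_mul m₁
  have h3 : m₁ * (α * g α (tau α ρ₂ m₁ t ρ) * (1 / (α * m₁ * t ^ (1 / α)))) =
      U α ρ₂ m₁ t ρ := by
    unfold U
    rw [Real.rpow_neg ht.le]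
    field_simp
  rw [h3] at h2
  exact h2

lemma continuous_U (hα : 1 < α) : Continuous (U α ρ₂ m₁ t) := by
  unfold U tau
  exact continuous_const.mul ((continuous_g hα).comp
    ((continuous_id.sub continuous_const).div_const _))

/-- The fan of the problem is `U`. -/
lemma fan_eq (hα : 1 < α) (hm : 0 < m₁) (ht : 0 < t) {ρ : ℝ} (h : ρ₂ < ρ) :
    fan α ρ₂ m₁ t ρ = U α ρ₂ m₁ t ρ := by
  have h0 : (0:ℝ) < α := by linarith
  have h1 : (0:ℝ) < α - 1 := by linarith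
  have ht' : 0 < t ^ (1 / α) := Real.rpow_pos_of_pos ht _
  set x := tau α ρ₂ m₁ t ρ with hx
  have hxpos : 0 < x := tau_pos hα hm ht h
  have e1 : (ρ - ρ₂) / (α * m₁ * t) = x * t ^ (-((α - 1) / α)) := by
    rw [hx]
    unfold tau
    have : t ^ (-((α - 1) / α)) = t ^ (1 / α) / t := by
      rw [← Real.rpow_sub_one ht.ne']
      congr 1
      field_simp
      ring
    rw [this]
    field_simp
  have e2 : ((ρ - ρ₂) / (α * m₁ * t)) ^ (-(α / (α - 1))) = x ^ (-(α / (α - 1))) * t := by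
    rw [e1, Real.mul_rpow hxpos.le (Real.rpow_nonneg ht.le _), ← Real.rpow_mul ht.le]
    have : -((α - 1) / α) * -(α / (α - 1)) = 1 := by field_simp
    rw [this, Real.rpow_one]
  have hP : P α x = x ^ (α / (α - 1)) := P_of_nonneg hxpos.le
  have hPpos : 0 < P α x := by rw [hP]; exact Real.rpow_pos_of_pos hxpos _
  have e3 : x ^ (-(α / (α - 1))) * t + α * t = t * ((1 + α * P α x) / P α x) := by
    rw [Real.rpow_neg hxpos.le, ← hP]
    field_simp
  have hp := one_add_pos hα x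
  unfold fan U
  rw [e2, e3, Real.mul_rpow ht.le (div_pos hp hPpos).le, ← hx]
  congr 1
  unfold g
  rw [max_eq_left hxpos.le, Real.div_rpow hp.le hPpos.le, div_eq_mul_inv, mul_comm]
  congr 1
  rw [← Real.rpow_neg hPpos.le, neg_neg, hP, ← Real.rpow_mul hxpos.le]
  congr 1
  field_simp

/-- `U ^ α F = - F_t`. -/
lemma U_rpow (hα : 1 < α) (ht : 0 < t) (ρ : ℝ) :
    (U α ρ₂ m₁ t ρ) ^ α = t⁻¹ * (P α (tau α ρ₂ m₁ t ρ) / (1 + α * P α (tau α ρ₂ m₁ t ρ))) := by
  have h0 : (0:ℝ) < α := by linarith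
  unfold U
  rw [Real.mul_rpow (Real.rpow_nonneg ht.le _) (g_nonneg hα _), g_rpow hα, ← Real.rpow_mul ht.le]
  have e2 : -(1 / α) * α = -1 := by field_simp
  rw [e2, Real.rpow_neg_one]

/-- Derivative of the fan mass along a curve. -/
lemma hasDerivAt_F_curve (hα : 1 < α) (hm : 0 < m₁) (ht : 0 < t) {S : ℝ → ℝ} {S' : ℝ}
    (hS : HasDerivAt S S' t) :
    HasDerivAt (fun s => F α ρ₂ m₁ s (S s))
      (-(U α ρ₂ m₁ t (S t)) ^ α * F α ρ₂ m₁ t (S t) + U α ρ₂ m₁ t (S t) * S') t := by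
  have h0 : (0:ℝ) < α := by linarith
  have ht' : 0 < t ^ (1 / α) := Real.rpow_pos_of_pos ht _
  set x := tau α ρ₂ m₁ t (S t) with hx
  have h1 : HasDerivAt (fun s : ℝ => α * m₁ * s ^ (1 / α))
      (α * m₁ * ((1 / α) * t ^ (1 / α - 1))) t :=
    (Real.hasDerivAt_rpow_const (Or.inl ht.ne')).const_mul _
  have h2 : HasDerivAt (fun s => tau α ρ₂ m₁ s (S s)) (S' / (α * m₁ * t ^ (1 / α)) - x / (α * t)) t := by
    have := (hS.sub_const ρ₂).div h1 (by positivity)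
    refine this.congr_deriv ?_
    rw [Real.rpow_sub_one ht.ne', hx]
    unfold tau
    field_simp
  have h3 := ((hasDerivAt_Q hα x).comp t h2).const_mul m₁
  refine h3.congr_deriv ?_
  rw [U_rpow hα ht, ← hx]
  unfold F U
  rw [← hx, Real.rpow_neg ht.le]
  have hg := mul_g hα x
  rw [rpow_eq_Q_div hα x] at hg
  have hp := one_add_pos hα x
  have : m₁ * (α * g α x * (S' / (α * m₁ * t ^ (1 / α)) - x / (α * t))) =
      - (m₁ * (x * g α x) / t) + (t ^ (1 / α))⁻¹ * g α x * S' := by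
    field_simp
    ring
  rw [this, hg]
  field_simp

lemma vortex_rpow (hα : 1 < α) (ht : 0 < t) : ((α * t) ^ (-(1 / α))) ^ α = (α * t)⁻¹ := by
  have h0 : (0:ℝ) < α := by linarith
  rw [← Real.rpow_mul (by positivity)]
  have e2 : -(1 / α) * α = -1 := by field_simp
  rw [e2, Real.rpow_neg_one]

lemma hasDerivAt_L_curve (hα : 1 < α) (ht : 0 < t) {S : ℝ → ℝ} {S' : ℝ}
    (hS : HasDerivAt S S' t) :
    HasDerivAt (fun s => L α ρ₁ s (S s))
      (-((α * t) ^ (-(1 / α))) ^ α * L α ρ₁ t (S t) + (α * t) ^ (-(1 / α)) * S') t := by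
  have h0 : (0:ℝ) < α := by linarith
  have hαt : 0 < α * t := by positivity
  have h1 : HasDerivAt (fun s : ℝ => (α * s) ^ (-(1 / α)))
      (α * (-(1 / α)) * (α * t) ^ (-(1 / α) - 1)) t := by
    have := ((hasDerivAt_id t).const_mul α).rpow_const (p := -(1 / α)) (Or.inl hαt.ne')
    simpa using this
  have h2 := h1.mul (hS.sub_const ρ₁)
  refine h2.congr_deriv ?_
  rw [vortex_rpow hα ht, Real.rpow_sub_one hαt.ne']
  unfold L
  field_simp

end

end Pool.Agent.Q194.TwoBump
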