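import Mathlib

/-!
# The two-bump solution: definitions

Everything is in the volume coordinate `ρ`. `α > 1` is the exponent, `m₁, m₂ > 0` are the masses and
`0 < ρ₁ < ρ₂` the positions of the two bumps.
-/

set_option autoImplicit false

namespace Pool.Agent.Q194.TwoBump

open Filter Topology Set

/-- The rarefaction fan
`u = (((ρ - ρ₂) / (α m₁ t)) ^ (-α / (α - 1)) + α t) ^ (-1 / α)` (it is used for `ρ > ρ₂`, `t > 0`). -/
noncomputable def fan (α ρ₂ m₁ t ρ : ℝ) : ℝ :=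
  (((ρ - ρ₂) / (α * m₁ * t)) ^ (-(α / (α - 1))) + α * t) ^ (-(1 / α))

/-- The density of the two-bump solution when its shocks are at `S₁ t` and `S₂ t`:
`(α t) ^ (-1 / α)` on `(ρ₁, S₁ t)`, the fan on the part of `(ρ₂, S₂ t)` to the right of `S₁ t`,
and `0` elsewhere. -/
noncomputable def density (α ρ₁ ρ₂ m₁ : ℝ) (S₁ S₂ : ℝ → ℝ) (t ρ : ℝ) : ℝ :=
  if ρ₁ < ρ ∧ ρ < S₁ t then (α * t) ^ (-(1 / α))
  else if S₁ t < ρ ∧ ρ₂ < ρ ∧ ρ < S₂ t then fan α ρ₂ m₁ t ρ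
  else 0

/-- The mass `m(t, ρ)` of the density `u(t, ·)` between `0` and `ρ`. -/
noncomputable def mass (u : ℝ → ℝ → ℝ) (t ρ : ℝ) : ℝ := ∫ r in (0 : ℝ)..ρ, u t r

/-- The Rankine-Hugoniot condition at time `t` for the shock `S` of the density `u`: the one-sided
limits `u(t, S(t)^-)` and `u(t, S(t)^+)` exist and
`S'(t) = m(t, S(t)) (u(t, S(t)^+) ^ α - u(t, S(t)^-) ^ α) / (u(t, S(t)^+) - u(t, S(t)^-))`. -/
def RankineHugoniot (α : ℝ) (u : ℝ → ℝ → ℝ) (S : ℝ → ℝ) (t : ℝ) : Prop :=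
  ∃ um up : ℝ, Tendsto (u t) (𝓝[<] S t) (𝓝 um) ∧ Tendsto (u t) (𝓝[>] S t) (𝓝 up) ∧
    HasDerivAt S (mass u t (S t) * ((up ^ α - um ^ α) / (up - um))) t

/-- `S₁` and `S₂` are the two shocks of the two-bump solution on the set `I` of times
(`I` is `(0, T)` or `(0, ∞)`), with `S₁ < S₂` on `I`. -/
structure IsTwoBump (α ρ₁ ρ₂ m₁ m₂ : ℝ) (I : Set ℝ) (S₁ S₂ : ℝ → ℝ) : Prop where
  /-- the first shock starts at `ρ₁` -/
  start₁ : Tendsto S₁ (𝓝[>] 0) (𝓝 ρ₁)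
  /-- the second shock starts at `ρ₂` -/
  start₂ : Tendsto S₂ (𝓝[>] 0) (𝓝 ρ₂)
  /-- the first bump occupies the nonempty interval `(ρ₁, S₁ t)` -/
  left₁ : ∀ t ∈ I, ρ₁ < S₁ t
  /-- the second bump occupies the nonempty interval `(ρ₂, S₂ t)` (as long as `S₁ t ≤ ρ₂`) -/
  left₂ : ∀ t ∈ I, ρ₂ < S₂ t
  /-- the shocks have not merged -/
  lt : ∀ t ∈ I, S₁ t < S₂ t
  /-- the mass function has the initial value `m₁ 1_{[ρ₁, ∞)} + m₂ 1_{[ρ₂, ∞)}` -/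
  initial : ∀ ρ, 0 < ρ → ρ ≠ ρ₁ → ρ ≠ ρ₂ →
    Tendsto (fun t => mass (density α ρ₁ ρ₂ m₁ S₁ S₂) t ρ) (𝓝[>] 0)
      (𝓝 ((if ρ₁ ≤ ρ then m₁ else 0) + (if ρ₂ ≤ ρ then m₂ else 0)))
  /-- the Rankine-Hugoniot condition at the first shock -/
  shock₁ : ∀ t ∈ I, RankineHugoniot α (density α ρ₁ ρ₂ m₁ S₁ S₂) S₁ t
  /-- the Rankine-Hugoniot condition at the second shock -/
  shock₂ : ∀ t ∈ I, RankineHugoniot α (density α ρ₁ ρ₂ m₁ S₁ S₂) S₂ t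

end Pool.Agent.Q194.TwoBump
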