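import Pool.Agent.Q194.TwoBump.Uniq

set_option autoImplicit false

namespace Pool.Agent.Q194.TwoBump

open Filter Topology Set MeasureTheory

/-- inverse of `Φ` -/
noncomputable def psi (α : ℝ) : ℝ → ℝ := Function.invFun (Phi α)

/-- the first shock -/
noncomputable def R₁ (α ρ₁ ρ₂ m₁ t : ℝ) : ℝ :=
  ρ₁ + (α * t) ^ (1 / α) * (m₁ * Q α (psi α (q α ρ₁ ρ₂ m₁ t)))

/-- the second shock -/
noncomputable def R₂ (α ρ₂ m₁ m₂ t : ℝ) : ℝ := ρ₂ + α * m₁ * t ^ (1 / α) * kap α m₁ m₂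

section
variable {α ρ₁ ρ₂ m₁ m₂ t T : ℝ}

lemma psi_Phi (hα : 1 < α) (x : ℝ) : psi α (Phi α x) = x :=
  Function.leftInverse_invFun (Phi_strictAnti hα).injective x

lemma mem_range_Phi (hα : 1 < α) {x y : ℝ} (h : Phi α x ≤ y) : ∃ z, Phi α z = y := by
  have h0 : (0:ℝ) < α := by linarith
  have hcont : Continuous (Phi α) :=
    continuous_iff_continuousAt.2 fun x => (hasDerivAt_Phi hα x).continuousAt
  have hc : 0 < α ^ ((α - 1) / α) := Real.rpow_pos_of_pos h0 _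
  apply mem_range_of_exists_le_of_exists_ge hcont ⟨x, h⟩
  refine ⟨-(|y| / α ^ ((α - 1) / α)), ?_⟩
  have hx : -(|y| / α ^ ((α - 1) / α)) ≤ 0 := by
    have : 0 ≤ |y| / α ^ ((α - 1) / α) := by positivity
    linarith
  unfold Phi
  rw [Q_of_nonpos hα hx]
  have : α ^ ((α - 1) / α) * -(|y| / α ^ ((α - 1) / α)) = -|y| := by field_simp
  rw [this]
  have := le_abs_self y
  linarith

lemma hasDerivAt_psi (hα : 1 < α) (x : ℝ) :
    HasDerivAt (psi α) (α * g α x - α ^ ((α - 1) / α))⁻¹ (Phi α x) := by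
  have h1 : HasStrictDerivAt (Phi α) (α * g α x - α ^ ((α - 1) / α)) x := by
    apply hasStrictDerivAt_of_hasDerivAt_of_continuousAt (f' := fun x => α * g α x - α ^ ((α - 1) / α))
    · exact Eventually.of_forall fun y => hasDerivAt_Phi hα y
    · exact ((continuous_const.mul (continuous_g hα)).sub continuous_const).continuousAt
  exact (h1.to_local_left_inverse (Phi_deriv_neg hα x).ne
    (Eventually.of_forall fun y => psi_Phi hα y)).hasDerivAt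

lemma tau_R₂ (hα : 1 < α) (hm : 0 < m₁) (ht : 0 < t) :
    tau α ρ₂ m₁ t (R₂ α ρ₂ m₁ m₂ t) = kap α m₁ m₂ := by
  have h0 : (0:ℝ) < α := by linarith
  have ht' : 0 < t ^ (1 / α) := Real.rpow_pos_of_pos ht _
  unfold tau R₂
  field_simp
  ring

lemma q_ge (hα : 1 < α) (h12 : ρ₁ < ρ₂) (hm : 0 < m₁) (hm2 : 0 < m₂) (ht : 0 < t)
    (htM : t ≤ mergeTime α ρ₁ ρ₂ m₁ m₂) : Phi α (kap α m₁ m₂) ≤ q α ρ₁ ρ₂ m₁ t := by
  rw [← q_mergeTime hα h12 hm hm2]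
  exact (q_strictAnti hα h12 hm).antitoneOn ht (mergeTime_pos hα h12 hm hm2) htM

lemma Phi_psi_q (hα : 1 < α) (h12 : ρ₁ < ρ₂) (hm : 0 < m₁) (hm2 : 0 < m₂) (ht : 0 < t)
    (htM : t ≤ mergeTime α ρ₁ ρ₂ m₁ m₂) :
    Phi α (psi α (q α ρ₁ ρ₂ m₁ t)) = q α ρ₁ ρ₂ m₁ t := by
  obtain ⟨z, hz⟩ := mem_range_Phi hα (q_ge hα h12 hm hm2 ht htM)
  rw [← hz, psi_Phi hα]

lemma R₁_eq (hα : 1 < α) (h12 : ρ₁ < ρ₂) (hm : 0 < m₁) (hm2 : 0 < m₂) (ht : 0 < t)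
    (htM : t ≤ mergeTime α ρ₁ ρ₂ m₁ m₂) :
    R₁ α ρ₁ ρ₂ m₁ t = ρ₂ + psi α (q α ρ₁ ρ₂ m₁ t) * (α * m₁ * t ^ (1 / α)) ∧
    tau α ρ₂ m₁ t (R₁ α ρ₁ ρ₂ m₁ t) = psi α (q α ρ₁ ρ₂ m₁ t) ∧
    L α ρ₁ t (R₁ α ρ₁ ρ₂ m₁ t) = F α ρ₂ m₁ t (R₁ α ρ₁ ρ₂ m₁ t) := by
  have h0 : (0:ℝ) < α := by linarith
  have ht' : 0 < t ^ (1 / α) := Real.rpow_pos_of_pos ht _
  have hαt : 0 < α * t := by positivity
  have hαt' : 0 < (α * t) ^ (1 / α) := Real.rpow_pos_of_pos hαt _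
  set x := psi α (q α ρ₁ ρ₂ m₁ t) with hx
  set s := ρ₂ + x * (α * m₁ * t ^ (1 / α)) with hs
  have h1 : tau α ρ₂ m₁ t s = x := by
    unfold tau
    rw [hs]
    field_simp
    ring
  have h2 : L α ρ₁ t s = F α ρ₂ m₁ t s := by
    have := L_sub_F (ρ₁ := ρ₁) (ρ₂ := ρ₂) hα hm ht s
    rw [h1, hx, Phi_psi_q hα h12 hm hm2 ht htM, sub_self, mul_zero] at this
    linarith
  have h3 : R₁ α ρ₁ ρ₂ m₁ t = s := by
    have h4 := h2
    unfold L F at h4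
    rw [h1, Real.rpow_neg hαt.le] at h4
    unfold R₁
    rw [← hx, ← h4]
    field_simp
    ring
  rw [h3]
  exact ⟨rfl, h1, h2⟩

lemma F_R₂ (hα : 1 < α) (hm : 0 < m₁) (hm2 : 0 < m₂) (ht : 0 < t) :
    F α ρ₂ m₁ t (R₂ α ρ₂ m₁ m₂ t) = m₁ + m₂ := by
  unfold F
  rw [tau_R₂ hα hm ht, Q_kap hα hm hm2]
  field_simp

lemma R₁_gt (hα : 1 < α) (hm : 0 < m₁) (ht : 0 < t) : ρ₁ < R₁ α ρ₁ ρ₂ m₁ t := by
  have h0 : (0:ℝ) < α := by linarith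
  have : 0 < (α * t) ^ (1 / α) * (m₁ * Q α (psi α (q α ρ₁ ρ₂ m₁ t))) :=
    mul_pos (Real.rpow_pos_of_pos (by positivity) _) (mul_pos hm (Q_pos hα _))
  unfold R₁
  linarith

lemma R₂_gt (hα : 1 < α) (hm : 0 < m₁) (hm2 : 0 < m₂) (ht : 0 < t) :
    ρ₂ < R₂ α ρ₂ m₁ m₂ t := by
  have h0 : (0:ℝ) < α := by linarith
  have : 0 < α * m₁ * t ^ (1 / α) * kap α m₁ m₂ :=
    mul_pos (mul_pos (mul_pos h0 hm) (Real.rpow_pos_of_pos ht _)) (kap_pos hα hm hm2)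
  unfold R₂
  linarith

lemma R₁_lt_R₂ (hα : 1 < α) (h12 : ρ₁ < ρ₂) (hm : 0 < m₁) (hm2 : 0 < m₂) (ht : 0 < t)
    (htM : t < mergeTime α ρ₁ ρ₂ m₁ m₂) : R₁ α ρ₁ ρ₂ m₁ t < R₂ α ρ₂ m₁ m₂ t := by
  apply (tau_lt_iff (ρ₂ := ρ₂) hα hm ht).1
  rw [tau_R₂ hα hm ht, (R₁_eq hα h12 hm hm2 ht htM.le).2.1]
  apply (Phi_strictAnti hα).lt_iff_gt.1
  rw [Phi_psi_q hα h12 hm hm2 ht htM.le, ← q_mergeTime hα h12 hm hm2]
  exact q_strictAnti hα h12 hm ht (mergeTime_pos hα h12 hm hm2) htM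

lemma continuousAt_rpow_one_div (hα : 1 < α) (t : ℝ) :
    ContinuousAt (fun s : ℝ => s ^ (1 / α)) t := by
  have h0 : (0:ℝ) < α := by linarith
  exact Real.continuousAt_rpow_const _ _ (Or.inr (by positivity))

lemma differentiableAt_R₁ (hα : 1 < α) (h12 : ρ₁ < ρ₂) (hm : 0 < m₁) (hm2 : 0 < m₂)
    (ht : 0 < t) (htM : t ≤ mergeTime α ρ₁ ρ₂ m₁ m₂) :
    DifferentiableAt ℝ (R₁ α ρ₁ ρ₂ m₁) t := by
  have h0 : (0:ℝ) < α := by linarith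
  have hαt : 0 < α * t := by positivity
  have hd1 : DifferentiableAt ℝ (fun s : ℝ => α * s) t := by fun_prop
  have hq : DifferentiableAt ℝ (q α ρ₁ ρ₂ m₁) t := by
    unfold q
    exact ((hd1.rpow_const (Or.inl hαt.ne')).mul_const _).div_const _
  have hpsi : DifferentiableAt ℝ (psi α) (q α ρ₁ ρ₂ m₁ t) := by
    rw [← Phi_psi_q hα h12 hm hm2 ht htM]
    exact (hasDerivAt_psi hα _).differentiableAt
  have hQ : DifferentiableAt ℝ (Q α) (psi α (q α ρ₁ ρ₂ m₁ t)) :=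
    (hasDerivAt_Q hα _).differentiableAt
  have h3 : DifferentiableAt ℝ (fun s => Q α (psi α (q α ρ₁ ρ₂ m₁ s))) t :=
    DifferentiableAt.comp (g := Q α) (f := fun s => psi α (q α ρ₁ ρ₂ m₁ s)) t hQ
      (DifferentiableAt.comp (g := psi α) (f := q α ρ₁ ρ₂ m₁) t hpsi hq)
  unfold R₁
  exact ((hd1.rpow_const (Or.inl hαt.ne')).mul (h3.const_mul m₁)).const_add ρ₁

lemma differentiableAt_R₂ (ht : 0 < t) : DifferentiableAt ℝ (R₂ α ρ₂ m₁ m₂) t := by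
  unfold R₂
  exact (((Real.hasDerivAt_rpow_const (Or.inl ht.ne')).differentiableAt.const_mul _).mul_const
    _).const_add ρ₂

/-- For small times `q ≥ 1`, so the first shock has not reached `ρ₂`. -/
lemma small_times (hα : 1 < α) (h12 : ρ₁ < ρ₂) (hm : 0 < m₁) (hm2 : 0 < m₂) :
    ∀ᶠ t in 𝓝[>] (0:ℝ), R₁ α ρ₁ ρ₂ m₁ t = ρ₁ + (α * t) ^ (1 / α) * m₁ := by
  have h0 : (0:ℝ) < α := by linarith
  have h3 : 0 < ρ₂ - ρ₁ := by linarith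
  have hlim : Tendsto (fun t : ℝ => (α * t) ^ (1 / α) * m₁) (𝓝[>] 0) (𝓝 0) := by
    have h1 : ContinuousAt (fun t : ℝ => (α * t) ^ (1 / α) * m₁) 0 := by
      apply ContinuousAt.mul_const
      exact (continuousAt_const.mul continuousAt_id).rpow_const (Or.inr (by positivity))
    have h2 : Tendsto (fun t : ℝ => (α * t) ^ (1 / α) * m₁) (𝓝 0) (𝓝 0) := by
      have := h1.tendsto
      rwa [mul_zero, Real.zero_rpow (by positivity), zero_mul] at this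
    exact h2.mono_left nhdsWithin_le_nhds
  filter_upwards [hlim.eventually (Iio_mem_nhds h3),
    Ioo_mem_nhdsGT (mergeTime_pos hα h12 hm hm2)] with t h4 h5
  have hαt : 0 < α * t := mul_pos h0 h5.1
  have hαt' : 0 < (α * t) ^ (1 / α) := Real.rpow_pos_of_pos hαt _
  have h6 : Phi α 0 ≤ q α ρ₁ ρ₂ m₁ t := by
    unfold Phi q
    rw [Q_of_nonpos hα le_rfl, mul_zero, sub_zero, Real.rpow_neg hαt.le, le_div_iff₀ hm, one_mul,
      ← div_eq_inv_mul, le_div_iff₀ hαt', mul_comm]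
    exact le_of_lt h4
  have h7 : psi α (q α ρ₁ ρ₂ m₁ t) ≤ 0 := by
    apply (Phi_strictAnti hα).le_iff_ge.1
    rw [Phi_psi_q hα h12 hm hm2 h5.1 h5.2.le]
    exact h6
  unfold R₁
  rw [Q_of_nonpos hα h7, mul_one]

lemma tendsto_R₁ (hα : 1 < α) (h12 : ρ₁ < ρ₂) (hm : 0 < m₁) (hm2 : 0 < m₂) :
    Tendsto (R₁ α ρ₁ ρ₂ m₁) (𝓝[>] 0) (𝓝 ρ₁) := by
  have h0 : (0:ℝ) < α := by linarith
  have h1 : ContinuousAt (fun t : ℝ => ρ₁ + (α * t) ^ (1 / α) * m₁) 0 := by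
    apply ContinuousAt.add continuousAt_const
    apply ContinuousAt.mul_const
    exact (continuousAt_const.mul continuousAt_id).rpow_const (Or.inr (by positivity))
  have h2 := h1.tendsto
  rw [mul_zero, Real.zero_rpow (by positivity), zero_mul, add_zero] at h2
  refine (h2.mono_left nhdsWithin_le_nhds).congr' ?_
  filter_upwards [small_times hα h12 hm hm2] with t ht
  exact ht.symm

lemma tendsto_R₂ (hα : 1 < α) : Tendsto (R₂ α ρ₂ m₁ m₂) (𝓝 0) (𝓝 ρ₂) := by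
  have h0 : (0:ℝ) < α := by linarith
  have h1 : ContinuousAt (R₂ α ρ₂ m₁ m₂) 0 := by
    unfold R₂
    exact continuousAt_const.add
      (((continuousAt_rpow_one_div hα 0).const_mul _).mul continuousAt_const)
  have h2 := h1.tendsto
  have h3 : R₂ α ρ₂ m₁ m₂ 0 = ρ₂ := by
    unfold R₂
    rw [Real.zero_rpow (by positivity), mul_zero, zero_mul, add_zero]
  rwa [h3] at h2

/-- Existence of the two-bump solution up to `mergeTime`. -/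
lemma isTwoBump_R (hα : 1 < α) (h0 : 0 < ρ₁) (h12 : ρ₁ < ρ₂) (hm : 0 < m₁) (hm2 : 0 < m₂) :
    IsTwoBump α ρ₁ ρ₂ m₁ m₂ (Ioo 0 (mergeTime α ρ₁ ρ₂ m₁ m₂))
      (R₁ α ρ₁ ρ₂ m₁) (R₂ α ρ₂ m₁ m₂) := by
  have hα0 : (0:ℝ) < α := by linarith
  have hM := mergeTime_pos hα h12 hm hm2
  have hR₂ : Tendsto (R₂ α ρ₂ m₁ m₂) (𝓝[>] 0) (𝓝 ρ₂) :=
    (tendsto_R₂ hα).mono_left nhdsWithin_le_nhds
  have hR₁ := tendsto_R₁ hα h12 hm hm2
  refine ⟨hR₁, hR₂, fun t ht => R₁_gt hα hm ht.1, fun t ht => R₂_gt hα hm hm2 ht.1,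
    fun t ht => R₁_lt_R₂ hα h12 hm hm2 ht.1 ht.2, ?_, ?_, ?_⟩
  · intro ρ hρ hne1 hne2
    rcases lt_trichotomy ρ ρ₁ with h | h | h
    · rw [if_neg (by linarith), if_neg (by linarith), add_zero]
      refine tendsto_const_nhds.congr' ?_
      filter_upwards [Ioo_mem_nhdsGT hM] with t ht
      exact (mass_left h0 (R₁_gt hα hm ht.1) hρ.le h.le).1.symm
    · exact absurd h hne1
    · rcases lt_trichotomy ρ ρ₂ with h' | h' | h'
      · rw [if_pos h.le, if_neg (by linarith), add_zero]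
        refine tendsto_const_nhds.congr' ?_
        filter_upwards [Ioo_mem_nhdsGT hM, hR₁.eventually (Iio_mem_nhds h)] with t ht ht2
        have h6 := R₂_gt (ρ₂ := ρ₂) hα hm hm2 ht.1
        have ht3 : R₁ α ρ₁ ρ₂ m₁ t < ρ := ht2
        rw [(mass_fan hα hm ht.1 h0 (R₁_gt hα hm ht.1) ht3.le (by linarith)).1,
          (R₁_eq hα h12 hm hm2 ht.1 ht.2.le).2.2, F_of_le hα hm ht.1 h'.le]
        ring
      · exact absurd h' hne2
      · rw [if_pos h.le, if_pos h'.le]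
        refine tendsto_const_nhds.congr' ?_
        filter_upwards [Ioo_mem_nhdsGT hM, hR₂.eventually (Iio_mem_nhds h')] with t ht ht2
        have ht3 : R₂ α ρ₂ m₁ m₂ t < ρ := ht2
        rw [mass_right hα hm ht.1 h0 (R₁_gt hα hm ht.1) (R₁_lt_R₂ hα h12 hm hm2 ht.1 ht.2) ht3.le,
          (R₁_eq hα h12 hm hm2 ht.1 ht.2.le).2.2, F_R₂ hα hm hm2 ht.1]
        ring
  · intro t ht
    rw [rh₁_iff hα hm ht.1 h0 (R₁_gt hα hm ht.1) (R₁_lt_R₂ hα h12 hm hm2 ht.1 ht.2)]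
    have hd := (differentiableAt_R₁ hα h12 hm hm2 ht.1 ht.2.le).hasDerivAt
    have h1 := (hasDerivAt_L_curve (ρ₁ := ρ₁) hα ht.1 hd).sub
      (hasDerivAt_F_curve (ρ₂ := ρ₂) hα hm ht.1 hd)
    have h2 : (fun s => L α ρ₁ s (R₁ α ρ₁ ρ₂ m₁ s)) - (fun s => F α ρ₂ m₁ s (R₁ α ρ₁ ρ₂ m₁ s))
        =ᶠ[𝓝 t] fun _ => 0 := by
      filter_upwards [Ioo_mem_nhds ht.1 ht.2] with s hs
      simp only [Pi.sub_apply]
      rw [(R₁_eq hα h12 hm hm2 hs.1 hs.2.le).2.2, sub_self]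
    have h3 := h1.unique ((hasDerivAt_const t (0:ℝ)).congr_of_eventuallyEq h2)
    have h4 := U_ne_vortex (ρ₂ := ρ₂) (m₁ := m₁) hα ht.1 (R₁ α ρ₁ ρ₂ m₁ t)
    rw [← (R₁_eq hα h12 hm hm2 ht.1 ht.2.le).2.2] at h3
    refine hd.congr_deriv ?_
    rw [← mul_div_assoc, eq_div_iff h4]
    linarith
  · intro t ht
    rw [rh₂_iff hα hm ht.1 h0 (R₁_gt hα hm ht.1) (R₁_lt_R₂ hα h12 hm hm2 ht.1 ht.2)]
    have hd := (differentiableAt_R₂ (α := α) (ρ₂ := ρ₂) (m₁ := m₁) (m₂ := m₂) ht.1).hasDerivAt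
    have h1 := hasDerivAt_F_curve (ρ₂ := ρ₂) hα hm ht.1 hd
    have h2 : (fun s => F α ρ₂ m₁ s (R₂ α ρ₂ m₁ m₂ s)) =ᶠ[𝓝 t] fun _ => m₁ + m₂ := by
      filter_upwards [Ioo_mem_nhds ht.1 ht.2] with s hs
      exact F_R₂ hα hm hm2 hs.1
    have h3 := h1.unique ((hasDerivAt_const t (m₁ + m₂)).congr_of_eventuallyEq h2)
    have h4 : U α ρ₂ m₁ t (R₂ α ρ₂ m₁ m₂ t) ≠ 0 := (U_pos hα hm ht.1 (R₂_gt hα hm hm2 ht.1)).ne'
    refine hd.congr_deriv ?_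
    rw [(R₁_eq hα h12 hm hm2 ht.1 ht.2.le).2.2, Real.zero_rpow hα0.ne', ← mul_div_assoc,
      eq_div_iff (by simpa using h4)]
    linarith

end

end Pool.Agent.Q194.TwoBump
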