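import Pool.Agent.Q194.TwoBump.Exist

set_option autoImplicit false

namespace Pool.Agent.Q194.TwoBump

open Filter Topology Set MeasureTheory

section
variable {α ρ₁ ρ₂ m₁ m₂ t T : ℝ}

lemma IsTwoBump.mono {I J : Set ℝ} {S₁ S₂ : ℝ → ℝ} (h : IsTwoBump α ρ₁ ρ₂ m₁ m₂ J S₁ S₂)
    (hIJ : I ⊆ J) : IsTwoBump α ρ₁ ρ₂ m₁ m₂ I S₁ S₂ :=
  ⟨h.start₁, h.start₂, fun t ht => h.left₁ t (hIJ ht), fun t ht => h.left₂ t (hIJ ht),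
    fun t ht => h.lt t (hIJ ht), h.initial, fun t ht => h.shock₁ t (hIJ ht),
    fun t ht => h.shock₂ t (hIJ ht)⟩

lemma R₁_zero (hα : 1 < α) : R₁ α ρ₁ ρ₂ m₁ 0 = ρ₁ := by
  have h0 : (0:ℝ) < α := by linarith
  unfold R₁
  rw [mul_zero, Real.zero_rpow (by positivity), zero_mul, add_zero]

lemma R₂_zero (hα : 1 < α) : R₂ α ρ₂ m₁ m₂ 0 = ρ₂ := by
  have h0 : (0:ℝ) < α := by linarith
  unfold R₂
  rw [Real.zero_rpow (by positivity), mul_zero, zero_mul, add_zero]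

lemma continuousOn_R₁ (hα : 1 < α) (h12 : ρ₁ < ρ₂) (hm : 0 < m₁) (hm2 : 0 < m₂) :
    ContinuousOn (R₁ α ρ₁ ρ₂ m₁) (Icc 0 (mergeTime α ρ₁ ρ₂ m₁ m₂)) := by
  intro t ht
  rcases eq_or_lt_of_le ht.1 with h | h
  · subst h
    have h1 : ContinuousWithinAt (R₁ α ρ₁ ρ₂ m₁) (Ioi 0) 0 := by
      unfold ContinuousWithinAt
      rw [R₁_zero hα]
      exact tendsto_R₁ hα h12 hm hm2
    have h2 : ContinuousWithinAt (R₁ α ρ₁ ρ₂ m₁) (Ici 0) 0 :=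
      continuousWithinAt_Ioi_iff_Ici.1 h1
    exact h2.mono Icc_subset_Ici_self
  · exact (differentiableAt_R₁ hα h12 hm hm2 h ht.2).continuousAt.continuousWithinAt

lemma continuous_R₂ (hα : 1 < α) : Continuous (R₂ α ρ₂ m₁ m₂) := by
  unfold R₂
  exact continuous_const.add ((continuous_const.mul
    (continuous_iff_continuousAt.2 fun t => continuousAt_rpow_one_div hα t)).mul continuous_const)

lemma R_merge (hα : 1 < α) (h12 : ρ₁ < ρ₂) (hm : 0 < m₁) (hm2 : 0 < m₂) :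
    R₁ α ρ₁ ρ₂ m₁ (mergeTime α ρ₁ ρ₂ m₁ m₂) = R₂ α ρ₂ m₁ m₂ (mergeTime α ρ₁ ρ₂ m₁ m₂) := by
  have hM := mergeTime_pos hα h12 hm hm2
  apply tau_inj (ρ₂ := ρ₂) hα hm hM
  rw [tau_R₂ hα hm hM, (R₁_eq hα h12 hm hm2 hM le_rfl).2.1, q_mergeTime hα h12 hm hm2,
    psi_Phi hα]

/-- The main theorem. -/
theorem main_thm (hα : 1 < α) (h0 : 0 < ρ₁) (h12 : ρ₁ < ρ₂) (hm : 0 < m₁) (hm2 : 0 < m₂) :
    ∃ T > 0,
      (∃ S₁ S₂ : ℝ → ℝ, IsTwoBump α ρ₁ ρ₂ m₁ m₂ (Ioo 0 T) S₁ S₂ ∧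
        ContinuousOn S₁ (Icc 0 T) ∧ ContinuousOn S₂ (Icc 0 T) ∧ S₁ 0 = ρ₁ ∧ S₂ 0 = ρ₂ ∧
        S₁ T = S₂ T ∧ (α * T) ^ (-(1 / α)) * (S₂ T - ρ₁) = m₁ + m₂ ∧
        ∀ T' > 0, ∀ R₁ R₂ : ℝ → ℝ, IsTwoBump α ρ₁ ρ₂ m₁ m₂ (Ioo 0 T') R₁ R₂ →
          T' ≤ T ∧ ∀ t ∈ Ioo 0 T', R₁ t = S₁ t ∧ R₂ t = S₂ t) ∧
      (∀ S₁ S₂ : ℝ → ℝ, ¬ IsTwoBump α ρ₁ ρ₂ m₁ m₂ (Ioi 0) S₁ S₂) ∧
      ∃ k > 0, (1 + k) ^ ((α - 1) / α) = (m₁ + m₂) / m₁ ∧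
        (α * T) ^ (1 / α) * (m₁ * ((1 + k) ^ ((α - 1) / α) - k ^ ((α - 1) / α))) = ρ₂ - ρ₁ := by
  have hα0 : (0:ℝ) < α := by linarith
  have hM := mergeTime_pos hα h12 hm hm2
  set T := mergeTime α ρ₁ ρ₂ m₁ m₂ with hT
  have hαT : 0 < α * T := mul_pos hα0 hM
  have hαT' : 0 < (α * T) ^ (1 / α) := Real.rpow_pos_of_pos hαT _
  refine ⟨T, hM, ⟨R₁ α ρ₁ ρ₂ m₁, R₂ α ρ₂ m₁ m₂, isTwoBump_R hα h0 h12 hm hm2,
    continuousOn_R₁ hα h12 hm hm2, (continuous_R₂ hα).continuousOn, R₁_zero hα, R₂_zero hα,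
    R_merge hα h12 hm hm2, ?_, ?_⟩, ?_, kk α m₁ m₂, kk_pos hα hm hm2, kk_rpow hα hm hm2, ?_⟩
  · have h1 := (R₁_eq hα h12 hm hm2 hM le_rfl).2.2
    have h2 := R_merge hα h12 hm hm2
    rw [← hT] at h2
    rw [h2, F_R₂ hα hm hm2 hM] at h1
    exact h1
  · intro T' hT' S₁ S₂ h
    have hle := le_mergeTime hα hm hm2 h0 h12 hT' h
    refine ⟨hle, fun t ht => ?_⟩
    exact uniq hα hm hm2 h0 h12 hT' hM h (isTwoBump_R hα h0 h12 hm hm2) t ht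
      ⟨ht.1, lt_of_lt_of_le ht.2 hle⟩
  · intro S₁ S₂ h
    have h1 := le_mergeTime (T := T + 1) hα hm hm2 h0 h12 (by linarith)
      (h.mono (fun t ht => ht.1))
    linarith
  · have h1 := q_mergeTime hα h12 hm hm2
    rw [← hT, Phi_kap hα hm hm2] at h1
    rw [← h1]
    unfold q
    rw [Real.rpow_neg hαT.le]
    field_simp

end

end Pool.Agent.Q194.TwoBump
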