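import Pool.Agent.Q194.TwoBump.Calc

set_option autoImplicit false

namespace Pool.Agent.Q194.TwoBump

open Filter Topology Set MeasureTheory

section
variable {α ρ₁ ρ₂ m₁ t : ℝ} {S₁ S₂ : ℝ → ℝ}

lemma density_vortex {r : ℝ} (h1 : ρ₁ < r) (h2 : r < S₁ t) :
    density α ρ₁ ρ₂ m₁ S₁ S₂ t r = (α * t) ^ (-(1 / α)) := by
  unfold density
  rw [if_pos ⟨h1, h2⟩]

lemma density_left (hl : ρ₁ < S₁ t) {r : ℝ} (h : r ≤ ρ₁) :
    density α ρ₁ ρ₂ m₁ S₁ S₂ t r = 0 := by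
  unfold density
  rw [if_neg (by rintro ⟨h1, -⟩; linarith), if_neg (by rintro ⟨h1, -⟩; linarith)]

lemma density_fan (hα : 1 < α) (hm : 0 < m₁) (ht : 0 < t) {r : ℝ}
    (h1 : S₁ t < r) (h2 : r < S₂ t) :
    density α ρ₁ ρ₂ m₁ S₁ S₂ t r = U α ρ₂ m₁ t r := by
  unfold density
  rw [if_neg (by rintro ⟨-, h⟩; linarith)]
  by_cases h : ρ₂ < r
  · rw [if_pos ⟨h1, h, h2⟩, fan_eq hα hm ht h]
  · rw [if_neg (by tauto), U_of_le hα hm ht (not_lt.1 h)]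

lemma density_right (hlt : S₁ t < S₂ t) {r : ℝ} (h : S₂ t ≤ r) :
    density α ρ₁ ρ₂ m₁ S₁ S₂ t r = 0 := by
  unfold density
  rw [if_neg (by rintro ⟨-, h1⟩; linarith), if_neg (by rintro ⟨-, -, h1⟩; linarith)]

lemma mass_left (h0 : 0 < ρ₁) (hl : ρ₁ < S₁ t) {r : ℝ} (hr0 : 0 ≤ r) (h : r ≤ ρ₁) :
    mass (density α ρ₁ ρ₂ m₁ S₁ S₂) t r = 0 ∧
      IntervalIntegrable (density α ρ₁ ρ₂ m₁ S₁ S₂ t) volume 0 r := by
  have he : EqOn (density α ρ₁ ρ₂ m₁ S₁ S₂ t) (fun _ => (0:ℝ)) (uIoo 0 r) := by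
    intro x hx
    rw [uIoo_of_le hr0] at hx
    exact density_left hl (by linarith [hx.2])
  constructor
  · unfold mass
    rw [intervalIntegral.integral_congr_uIoo he]
    simp
  · exact ((continuous_const (y := (0:ℝ))).intervalIntegrable 0 r).congr_uIoo (fun x hx => (he hx).symm)

lemma mass_vortex (h0 : 0 < ρ₁) (hl : ρ₁ < S₁ t) {r : ℝ} (hr : ρ₁ ≤ r) (h : r ≤ S₁ t) :
    mass (density α ρ₁ ρ₂ m₁ S₁ S₂) t r = L α ρ₁ t r ∧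
      IntervalIntegrable (density α ρ₁ ρ₂ m₁ S₁ S₂ t) volume 0 r := by
  obtain ⟨hm0, hi0⟩ := mass_left (α := α) (ρ₂ := ρ₂) (m₁ := m₁) (S₂ := S₂) h0 hl h0.le le_rfl
  have he : EqOn (density α ρ₁ ρ₂ m₁ S₁ S₂ t) (fun _ => (α * t) ^ (-(1 / α))) (uIoo ρ₁ r) := by
    intro x hx
    rw [uIoo_of_le hr] at hx
    exact density_vortex hx.1 (by linarith [hx.2])
  have hi1 : IntervalIntegrable (density α ρ₁ ρ₂ m₁ S₁ S₂ t) volume ρ₁ r :=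
    ((continuous_const (y := (α * t) ^ (-(1 / α)))).intervalIntegrable ρ₁ r).congr_uIoo (fun x hx => (he hx).symm)
  refine ⟨?_, hi0.trans hi1⟩
  unfold mass at *
  rw [← intervalIntegral.integral_add_adjacent_intervals hi0 hi1, hm0,
    intervalIntegral.integral_congr_uIoo he, intervalIntegral.integral_const]
  unfold L
  simp [mul_comm]

lemma mass_fan (hα : 1 < α) (hm : 0 < m₁) (ht : 0 < t) (h0 : 0 < ρ₁) (hl : ρ₁ < S₁ t)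
    {r : ℝ} (hr : S₁ t ≤ r) (h : r ≤ S₂ t) :
    mass (density α ρ₁ ρ₂ m₁ S₁ S₂) t r =
        L α ρ₁ t (S₁ t) + F α ρ₂ m₁ t r - F α ρ₂ m₁ t (S₁ t) ∧
      IntervalIntegrable (density α ρ₁ ρ₂ m₁ S₁ S₂ t) volume 0 r := by
  obtain ⟨hm0, hi0⟩ := mass_vortex (α := α) (ρ₂ := ρ₂) (m₁ := m₁) (S₂ := S₂) h0 hl hl.le le_rfl
  have he : EqOn (density α ρ₁ ρ₂ m₁ S₁ S₂ t) (U α ρ₂ m₁ t) (uIoo (S₁ t) r) := by
    intro x hx
    rw [uIoo_of_le hr] at hx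
    exact density_fan hα hm ht hx.1 (by linarith [hx.2])
  have hiU : IntervalIntegrable (U α ρ₂ m₁ t) volume (S₁ t) r :=
    (continuous_U hα).intervalIntegrable _ _
  have hi1 : IntervalIntegrable (density α ρ₁ ρ₂ m₁ S₁ S₂ t) volume (S₁ t) r :=
    hiU.congr_uIoo (fun x hx => (he hx).symm)
  refine ⟨?_, hi0.trans hi1⟩
  unfold mass at *
  rw [← intervalIntegral.integral_add_adjacent_intervals hi0 hi1, hm0,
    intervalIntegral.integral_congr_uIoo he,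
    intervalIntegral.integral_eq_sub_of_hasDerivAt (fun x _ => hasDerivAt_F hα hm ht x) hiU]
  ring

lemma mass_right (hα : 1 < α) (hm : 0 < m₁) (ht : 0 < t) (h0 : 0 < ρ₁) (hl : ρ₁ < S₁ t)
    (hlt : S₁ t < S₂ t) {r : ℝ} (hr : S₂ t ≤ r) :
    mass (density α ρ₁ ρ₂ m₁ S₁ S₂) t r =
        L α ρ₁ t (S₁ t) + F α ρ₂ m₁ t (S₂ t) - F α ρ₂ m₁ t (S₁ t) := by
  obtain ⟨hm0, hi0⟩ := mass_fan (α := α) (ρ₂ := ρ₂) (m₁ := m₁) (S₂ := S₂) hα hm ht h0 hl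
    hlt.le le_rfl
  have he : EqOn (density α ρ₁ ρ₂ m₁ S₁ S₂ t) (fun _ => (0:ℝ)) (uIoo (S₂ t) r) := by
    intro x hx
    rw [uIoo_of_le hr] at hx
    exact density_right hlt hx.1.le
  have hi1 : IntervalIntegrable (density α ρ₁ ρ₂ m₁ S₁ S₂ t) volume (S₂ t) r :=
    ((continuous_const (y := (0:ℝ))).intervalIntegrable (S₂ t) r).congr_uIoo (fun x hx => (he hx).symm)
  unfold mass at *
  rw [← intervalIntegral.integral_add_adjacent_intervals hi0 hi1, hm0,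
    intervalIntegral.integral_congr_uIoo he]
  simp

/-- one-sided limits at the first shock -/
lemma limits₁ (hα : 1 < α) (hm : 0 < m₁) (ht : 0 < t) (hl : ρ₁ < S₁ t) (hlt : S₁ t < S₂ t) :
    Tendsto (density α ρ₁ ρ₂ m₁ S₁ S₂ t) (𝓝[<] S₁ t) (𝓝 ((α * t) ^ (-(1 / α)))) ∧
    Tendsto (density α ρ₁ ρ₂ m₁ S₁ S₂ t) (𝓝[>] S₁ t) (𝓝 (U α ρ₂ m₁ t (S₁ t))) := by
  constructor
  · refine tendsto_const_nhds.congr' ?_
    filter_upwards [Ioo_mem_nhdsLT hl] with r hr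
    exact (density_vortex hr.1 hr.2).symm
  · refine (((continuous_U hα).tendsto (S₁ t)).mono_left nhdsWithin_le_nhds).congr' ?_
    filter_upwards [Ioo_mem_nhdsGT hlt] with r hr
    exact (density_fan hα hm ht hr.1 hr.2).symm

/-- one-sided limits at the second shock -/
lemma limits₂ (hα : 1 < α) (hm : 0 < m₁) (ht : 0 < t) (hlt : S₁ t < S₂ t) :
    Tendsto (density α ρ₁ ρ₂ m₁ S₁ S₂ t) (𝓝[<] S₂ t) (𝓝 (U α ρ₂ m₁ t (S₂ t))) ∧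
    Tendsto (density α ρ₁ ρ₂ m₁ S₁ S₂ t) (𝓝[>] S₂ t) (𝓝 0) := by
  constructor
  · refine (((continuous_U hα).tendsto (S₂ t)).mono_left nhdsWithin_le_nhds).congr' ?_
    filter_upwards [Ioo_mem_nhdsLT hlt] with r hr
    exact (density_fan hα hm ht hr.1 hr.2).symm
  · refine tendsto_const_nhds.congr' ?_
    filter_upwards [self_mem_nhdsWithin] with r hr
    exact (density_right hlt (le_of_lt hr)).symm

/-- The Rankine-Hugoniot condition at the first shock. -/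
lemma rh₁_iff (hα : 1 < α) (hm : 0 < m₁) (ht : 0 < t) (h0 : 0 < ρ₁) (hl : ρ₁ < S₁ t)
    (hlt : S₁ t < S₂ t) :
    RankineHugoniot α (density α ρ₁ ρ₂ m₁ S₁ S₂) S₁ t ↔
      HasDerivAt S₁ (L α ρ₁ t (S₁ t) *
        (((U α ρ₂ m₁ t (S₁ t)) ^ α - ((α * t) ^ (-(1 / α))) ^ α) /
          (U α ρ₂ m₁ t (S₁ t) - (α * t) ^ (-(1 / α))))) t := by
  obtain ⟨l1, l2⟩ := limits₁ (ρ₂ := ρ₂) hα hm ht hl hlt
  have hmass := (mass_vortex (α := α) (ρ₂ := ρ₂) (m₁ := m₁) (S₂ := S₂) h0 hl hl.le le_rfl).1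
  constructor
  · rintro ⟨um, up, h1, h2, h3⟩
    rw [tendsto_nhds_unique h1 l1, tendsto_nhds_unique h2 l2, hmass] at h3
    exact h3
  · intro h
    refine ⟨_, _, l1, l2, ?_⟩
    rw [hmass]
    exact h

/-- The Rankine-Hugoniot condition at the second shock. -/
lemma rh₂_iff (hα : 1 < α) (hm : 0 < m₁) (ht : 0 < t) (h0 : 0 < ρ₁) (hl : ρ₁ < S₁ t)
    (hlt : S₁ t < S₂ t) :
    RankineHugoniot α (density α ρ₁ ρ₂ m₁ S₁ S₂) S₂ t ↔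
      HasDerivAt S₂ ((L α ρ₁ t (S₁ t) + F α ρ₂ m₁ t (S₂ t) - F α ρ₂ m₁ t (S₁ t)) *
        ((0 ^ α - (U α ρ₂ m₁ t (S₂ t)) ^ α) / (0 - U α ρ₂ m₁ t (S₂ t)))) t := by
  obtain ⟨l1, l2⟩ := limits₂ (ρ₁ := ρ₁) (ρ₂ := ρ₂) hα hm ht hlt
  have hmass := mass_right (α := α) (ρ₂ := ρ₂) (m₁ := m₁) (S₂ := S₂) hα hm ht h0 hl hlt le_rfl
  constructor
  · rintro ⟨um, up, h1, h2, h3⟩
    rw [tendsto_nhds_unique h1 l1, tendsto_nhds_unique h2 l2, hmass] at h3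
    exact h3
  · intro h
    refine ⟨_, _, l1, l2, ?_⟩
    rw [hmass]
    exact h

end

end Pool.Agent.Q194.TwoBump
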