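import Pool.Agent.Q194.TwoBump.Mass

set_option autoImplicit false

namespace Pool.Agent.Q194.TwoBump

open Filter Topology Set MeasureTheory

/-- `Φ x = Q x - α ^ ((α - 1)/α) x`. -/
noncomputable def Phi (α x : ℝ) : ℝ := Q α x - α ^ ((α - 1) / α) * x

section
variable {α ρ₁ ρ₂ m₁ m₂ t T : ℝ} {S₁ S₂ : ℝ → ℝ}

lemma hasDerivAt_Phi (hα : 1 < α) (x : ℝ) :
    HasDerivAt (Phi α) (α * g α x - α ^ ((α - 1) / α)) x := by
  have := (hasDerivAt_Q hα x).sub ((hasDerivAt_id x).const_mul (α ^ ((α - 1) / α)))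
  rw [mul_one] at this
  exact this

lemma Phi_deriv_neg (hα : 1 < α) (x : ℝ) : α * g α x - α ^ ((α - 1) / α) < 0 := by
  have h0 : (0:ℝ) < α := by linarith
  have h1 := mul_lt_mul_of_pos_left (g_lt hα x) h0
  have h2 : α * α ^ (-(1 / α)) = α ^ ((α - 1) / α) := by
    have : (α - 1) / α = 1 + -(1 / α) := by field_simp; ring
    rw [this, Real.rpow_add h0, Real.rpow_one]
  rw [h2] at h1
  linarith

lemma Phi_strictAnti (hα : 1 < α) : StrictAnti (Phi α) :=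
  strictAnti_of_hasDerivAt_neg (fun x => hasDerivAt_Phi hα x) (fun x => Phi_deriv_neg hα x)

/-- the function `q`. -/
noncomputable def q (α ρ₁ ρ₂ m₁ t : ℝ) : ℝ := (α * t) ^ (-(1 / α)) * (ρ₂ - ρ₁) / m₁

lemma L_sub_F (hα : 1 < α) (hm : 0 < m₁) (ht : 0 < t) (s : ℝ) :
    L α ρ₁ t s - F α ρ₂ m₁ t s = m₁ * (q α ρ₁ ρ₂ m₁ t - Phi α (tau α ρ₂ m₁ t s)) := by
  have h0 : (0:ℝ) < α := by linarith
  have ht' : 0 < t ^ (1 / α) := Real.rpow_pos_of_pos ht _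
  have h2 : α ^ ((α - 1) / α) = α * α ^ (-(1 / α)) := by
    have : (α - 1) / α = 1 + -(1 / α) := by field_simp; ring
    rw [this, Real.rpow_add h0, Real.rpow_one]
  have h3 : (α * t) ^ (-(1 / α)) = α ^ (-(1 / α)) / t ^ (1 / α) := by
    rw [Real.mul_rpow h0.le ht.le, Real.rpow_neg ht.le]
    rfl
  unfold L F q Phi
  rw [h2, h3]
  have h4 : s = ρ₂ + tau α ρ₂ m₁ t s * (α * m₁ * t ^ (1 / α)) := by
    unfold tau
    field_simp
    ring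
  conv_lhs => rw [h4]
  have h5 : tau α ρ₂ m₁ t (ρ₂ + tau α ρ₂ m₁ t s * (α * m₁ * t ^ (1 / α))) =
      tau α ρ₂ m₁ t s := by rw [← h4]
  rw [h5]
  field_simp
  ring

lemma U_ne_vortex (hα : 1 < α) (ht : 0 < t) (s : ℝ) :
    U α ρ₂ m₁ t s - (α * t) ^ (-(1 / α)) ≠ 0 := by
  have := U_lt (ρ₂ := ρ₂) (m₁ := m₁) hα ht s
  linarith

/-- The two descriptions of the mass agree at the first shock. -/
lemma L_eq_F (hα : 1 < α) (hm : 0 < m₁) (h0 : 0 < ρ₁) (h12 : ρ₁ < ρ₂) (hT : 0 < T)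
    (h : IsTwoBump α ρ₁ ρ₂ m₁ m₂ (Ioo 0 T) S₁ S₂) :
    ∀ t ∈ Ioo 0 T, L α ρ₁ t (S₁ t) = F α ρ₂ m₁ t (S₁ t) := by
  set D : ℝ → ℝ := fun t => L α ρ₁ t (S₁ t) - F α ρ₂ m₁ t (S₁ t) with hD
  -- derivative of `D`
  have hder : ∀ t ∈ Ioo 0 T, HasDerivAt D (-(U α ρ₂ m₁ t (S₁ t)) ^ α * D t) t := by
    intro t ht
    have h1 := (rh₁_iff hα hm ht.1 h0 (h.left₁ t ht) (h.lt t ht)).1 (h.shock₁ t ht)
    have h2 := (hasDerivAt_L_curve (ρ₁ := ρ₁) hα ht.1 h1).sub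
      (hasDerivAt_F_curve (ρ₂ := ρ₂) hα hm ht.1 h1)
    refine h2.congr_deriv ?_
    have h3 := U_ne_vortex (ρ₂ := ρ₂) (m₁ := m₁) hα ht.1 (S₁ t)
    simp only [hD]
    field_simp
    ring
  -- `D ^ 2` is antitone
  have hanti : AntitoneOn (fun t => D t ^ 2) (Ioo 0 T) := by
    apply antitoneOn_of_deriv_nonpos (convex_Ioo 0 T)
    · intro t ht
      exact ((hder t ht).continuousAt.pow 2).continuousWithinAt
    · intro t ht
      rw [interior_Ioo] at ht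
      exact ((hder t ht).pow 2).differentiableAt.differentiableWithinAt
    · intro t ht
      rw [interior_Ioo] at ht
      change deriv (D ^ 2) t ≤ 0
      rw [((hder t ht).pow 2).deriv]
      have hu : 0 ≤ (U α ρ₂ m₁ t (S₁ t)) ^ α := Real.rpow_nonneg (U_nonneg hα ht.1 _) _
      have : (2:ℕ) * D t ^ (2 - 1) * (-U α ρ₂ m₁ t (S₁ t) ^ α * D t) =
          -(2 * (U α ρ₂ m₁ t (S₁ t) ^ α * D t ^ 2)) := by
        norm_num
        ring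
      rw [this]
      have : 0 ≤ U α ρ₂ m₁ t (S₁ t) ^ α * D t ^ 2 := mul_nonneg hu (sq_nonneg _)
      linarith
  -- `D → 0`
  have hmid : ρ₁ < (ρ₁ + ρ₂) / 2 ∧ (ρ₁ + ρ₂) / 2 < ρ₂ := ⟨by linarith, by linarith⟩
  have hD0 : Tendsto D (𝓝[>] 0) (𝓝 0) := by
    have h1 := h.initial ((ρ₁ + ρ₂) / 2) (by linarith) (by linarith) (by linarith)
    rw [if_pos hmid.1.le, if_neg (by linarith), add_zero] at h1
    have h2 : Tendsto (fun t => mass (density α ρ₁ ρ₂ m₁ S₁ S₂) t ((ρ₁ + ρ₂) / 2) - m₁)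
        (𝓝[>] 0) (𝓝 0) := by
      simpa using h1.sub_const m₁
    refine h2.congr' ?_
    have h3 : ∀ᶠ t in 𝓝[>] (0:ℝ), S₁ t < (ρ₁ + ρ₂) / 2 :=
      h.start₁.eventually (Iio_mem_nhds hmid.1)
    filter_upwards [h3, Ioo_mem_nhdsGT hT] with t h4 h5
    have h6 := h.left₂ t h5
    rw [(mass_fan (ρ₁ := ρ₁) hα hm h5.1 h0 (h.left₁ t h5) h4.le (by linarith)).1,
      F_of_le hα hm h5.1 hmid.2.le]
    simp only [hD]
    rw [F_of_le (ρ₂ := ρ₂) hα hm h5.1 (by linarith)]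
    ring
  intro t ht
  have hle : D t ^ 2 ≤ 0 := by
    have h1 : Tendsto (fun s => D s ^ 2) (𝓝[>] 0) (𝓝 0) := by
      simpa using hD0.pow 2
    refine ge_of_tendsto h1 ?_
    filter_upwards [Ioo_mem_nhdsGT ht.1] with s hs
    exact hanti ⟨hs.1, by linarith [hs.2, ht.2]⟩ ht hs.2.le
  have : D t = 0 := by
    have := sq_nonneg (D t)
    exact pow_eq_zero_iff (two_ne_zero) |>.1 (le_antisymm hle this)
  simp only [hD] at this
  linarith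

lemma F_at_S₂ (hα : 1 < α) (hm : 0 < m₁) (h0 : 0 < ρ₁) (h12 : ρ₁ < ρ₂) (hT : 0 < T)
    (h : IsTwoBump α ρ₁ ρ₂ m₁ m₂ (Ioo 0 T) S₁ S₂) :
    ∀ t ∈ Ioo 0 T, F α ρ₂ m₁ t (S₂ t) = m₁ + m₂ := by
  have hα0 : (0:ℝ) < α := by linarith
  have hL := L_eq_F hα hm h0 h12 hT h
  have hder : ∀ t ∈ Ioo 0 T, HasDerivAt (fun s => F α ρ₂ m₁ s (S₂ s)) 0 t := by
    intro t ht
    have h1 := (rh₂_iff hα hm ht.1 h0 (h.left₁ t ht) (h.lt t ht)).1 (h.shock₂ t ht)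
    have h2 := hasDerivAt_F_curve (ρ₂ := ρ₂) hα hm ht.1 h1
    refine h2.congr_deriv ?_
    have h3 : U α ρ₂ m₁ t (S₂ t) ≠ 0 := (U_pos hα hm ht.1 (h.left₂ t ht)).ne'
    rw [hL t ht, Real.zero_rpow hα0.ne']
    field_simp
    ring
  have hlim : Tendsto (fun s => F α ρ₂ m₁ s (S₂ s)) (𝓝[>] 0) (𝓝 (m₁ + m₂)) := by
    have h1 := h.initial (ρ₂ + 1) (by linarith) (by linarith) (by linarith)
    rw [if_pos (by linarith), if_pos (by linarith)] at h1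
    refine h1.congr' ?_
    have h3 : ∀ᶠ t in 𝓝[>] (0:ℝ), S₂ t < ρ₂ + 1 :=
      h.start₂.eventually (Iio_mem_nhds (by linarith))
    filter_upwards [h3, Ioo_mem_nhdsGT hT] with t h4 h5
    rw [mass_right hα hm h5.1 h0 (h.left₁ t h5) (h.lt t h5) h4.le, hL t h5]
    ring
  intro t ht
  have hconst : ∀ s ∈ Ioo 0 T, F α ρ₂ m₁ s (S₂ s) = F α ρ₂ m₁ t (S₂ t) := by
    intro s hs
    have := (convex_Ioo 0 T).norm_image_sub_le_of_norm_hasDerivWithin_le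
      (f := fun s => F α ρ₂ m₁ s (S₂ s)) (f' := fun _ => (0:ℝ)) (C := 0)
      (fun x hx => (hder x hx).hasDerivWithinAt) (fun x _ => by simp) ht hs
    simp only [zero_mul, norm_le_zero_iff, sub_eq_zero] at this
    exact this
  have h2 : Tendsto (fun _ : ℝ => F α ρ₂ m₁ t (S₂ t)) (𝓝[>] 0) (𝓝 (m₁ + m₂)) := by
    refine hlim.congr' ?_
    filter_upwards [Ioo_mem_nhdsGT hT] with s hs
    exact hconst s hs
  exact tendsto_nhds_unique tendsto_const_nhds h2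

/-- The number `k` with `(1 + k) ^ ((α-1)/α) = (m₁ + m₂)/m₁`. -/
noncomputable def kk (α m₁ m₂ : ℝ) : ℝ := ((m₁ + m₂) / m₁) ^ (α / (α - 1)) - 1

/-- The scaled position of the second shock. -/
noncomputable def kap (α m₁ m₂ : ℝ) : ℝ := (kk α m₁ m₂ / α) ^ ((α - 1) / α)

/-- The merging time. -/
noncomputable def mergeTime (α ρ₁ ρ₂ m₁ m₂ : ℝ) : ℝ :=
  (m₁ * Phi α (kap α m₁ m₂) / (ρ₂ - ρ₁)) ^ (-α) / α

lemma kk_pos (hα : 1 < α) (hm : 0 < m₁) (hm2 : 0 < m₂) : 0 < kk α m₁ m₂ := by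
  unfold kk
  have h1 : (0:ℝ) < α - 1 := by linarith
  have : 1 < (m₁ + m₂) / m₁ := by rw [lt_div_iff₀ hm]; linarith
  have := Real.one_lt_rpow this (z := α / (α - 1)) (by positivity)
  linarith

lemma kk_rpow (hα : 1 < α) (hm : 0 < m₁) (hm2 : 0 < m₂) :
    (1 + kk α m₁ m₂) ^ ((α - 1) / α) = (m₁ + m₂) / m₁ := by
  have h1 : (0:ℝ) < α - 1 := by linarith
  have h0 : (0:ℝ) < α := by linarith
  unfold kk
  rw [add_sub_cancel, ← Real.rpow_mul (by positivity)]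
  have : α / (α - 1) * ((α - 1) / α) = 1 := by field_simp
  rw [this, Real.rpow_one]

lemma kap_pos (hα : 1 < α) (hm : 0 < m₁) (hm2 : 0 < m₂) : 0 < kap α m₁ m₂ :=
  Real.rpow_pos_of_pos (div_pos (kk_pos hα hm hm2) (by linarith)) _

lemma P_kap (hα : 1 < α) (hm : 0 < m₁) (hm2 : 0 < m₂) :
    α * P α (kap α m₁ m₂) = kk α m₁ m₂ := by
  have h1 : (0:ℝ) < α - 1 := by linarith
  have h0 : (0:ℝ) < α := by linarith
  have hk := kk_pos hα hm hm2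
  rw [P_of_nonneg (kap_pos hα hm hm2).le]
  unfold kap
  rw [← Real.rpow_mul (by positivity)]
  have : (α - 1) / α * (α / (α - 1)) = 1 := by field_simp
  rw [this, Real.rpow_one]
  field_simp

lemma Q_kap (hα : 1 < α) (hm : 0 < m₁) (hm2 : 0 < m₂) :
    Q α (kap α m₁ m₂) = (m₁ + m₂) / m₁ := by
  unfold Q
  rw [P_kap hα hm hm2, kk_rpow hα hm hm2]

lemma Phi_kap (hα : 1 < α) (hm : 0 < m₁) (hm2 : 0 < m₂) :
    Phi α (kap α m₁ m₂) =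
      (1 + kk α m₁ m₂) ^ ((α - 1) / α) - (kk α m₁ m₂) ^ ((α - 1) / α) := by
  have h0 : (0:ℝ) < α := by linarith
  have hk := kk_pos hα hm hm2
  unfold Phi
  rw [Q_kap hα hm hm2, kk_rpow hα hm hm2]
  unfold kap
  rw [← Real.mul_rpow h0.le (by positivity)]
  congr 2
  field_simp

lemma Phi_kap_pos (hα : 1 < α) (hm : 0 < m₁) (hm2 : 0 < m₂) : 0 < Phi α (kap α m₁ m₂) := by
  have h1 : (0:ℝ) < α - 1 := by linarith
  have h0 : (0:ℝ) < α := by linarith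
  have hk := kk_pos hα hm hm2
  rw [Phi_kap hα hm hm2]
  have := Real.rpow_lt_rpow hk.le (by linarith : kk α m₁ m₂ < 1 + kk α m₁ m₂)
    (by positivity : 0 < (α - 1) / α)
  linarith

lemma mergeTime_pos (hα : 1 < α) (h12 : ρ₁ < ρ₂) (hm : 0 < m₁) (hm2 : 0 < m₂) :
    0 < mergeTime α ρ₁ ρ₂ m₁ m₂ := by
  have h0 : (0:ℝ) < α := by linarith
  exact div_pos (Real.rpow_pos_of_pos
    (div_pos (mul_pos hm (Phi_kap_pos hα hm hm2)) (by linarith)) _) h0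

lemma q_mergeTime (hα : 1 < α) (h12 : ρ₁ < ρ₂) (hm : 0 < m₁) (hm2 : 0 < m₂) :
    q α ρ₁ ρ₂ m₁ (mergeTime α ρ₁ ρ₂ m₁ m₂) = Phi α (kap α m₁ m₂) := by
  have h0 : (0:ℝ) < α := by linarith
  have h3 : 0 < ρ₂ - ρ₁ := by linarith
  have h4 : 0 < m₁ * Phi α (kap α m₁ m₂) / (ρ₂ - ρ₁) :=
    div_pos (mul_pos hm (Phi_kap_pos hα hm hm2)) h3
  unfold q mergeTime
  rw [mul_div_cancel₀ _ h0.ne', ← Real.rpow_mul h4.le]
  have : -α * -(1 / α) = 1 := by field_simp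
  rw [this, Real.rpow_one]
  field_simp

lemma q_strictAnti (hα : 1 < α) (h12 : ρ₁ < ρ₂) (hm : 0 < m₁) :
    StrictAntiOn (q α ρ₁ ρ₂ m₁) (Ioi 0) := by
  intro s hs t ht hst
  have h0 : (0:ℝ) < α := by linarith
  have h3 : 0 < ρ₂ - ρ₁ := by linarith
  have hs' : 0 < α * s := mul_pos h0 hs
  have h4 : (α * t) ^ (-(1 / α)) < (α * s) ^ (-(1 / α)) :=
    Real.rpow_lt_rpow_of_neg hs' (mul_lt_mul_of_pos_left hst h0)
      (by have : 0 < 1 / α := by positivity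
          linarith)
  unfold q
  exact div_lt_div_of_pos_right (mul_lt_mul_of_pos_right h4 h3) hm

lemma Q_inj (hα : 1 < α) {x y : ℝ} (hx : 0 < x) (hy : 0 < y) (h : Q α x = Q α y) : x = y := by
  have h1 : (0:ℝ) < α - 1 := by linarith
  have h0 : (0:ℝ) < α := by linarith
  unfold Q at h
  have hb : (α - 1) / α ≠ 0 := by positivity
  have h2 := (Real.rpow_left_inj (one_add_pos hα x).le (one_add_pos hα y).le hb).1 h
  have h3 : P α x = P α y := by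
    have : α * P α x = α * P α y := by linarith
    exact mul_left_cancel₀ h0.ne' this
  rw [P_of_nonneg hx.le, P_of_nonneg hy.le] at h3
  exact (Real.rpow_left_inj hx.le hy.le (by positivity)).1 h3

/-- For any two-bump solution the scaled position of the second shock is `kap`. -/
lemma tau_S₂ (hα : 1 < α) (hm : 0 < m₁) (hm2 : 0 < m₂) (h0 : 0 < ρ₁) (h12 : ρ₁ < ρ₂)
    (hT : 0 < T) (h : IsTwoBump α ρ₁ ρ₂ m₁ m₂ (Ioo 0 T) S₁ S₂) :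
    ∀ t ∈ Ioo 0 T, tau α ρ₂ m₁ t (S₂ t) = kap α m₁ m₂ := by
  intro t ht
  apply Q_inj hα (tau_pos hα hm ht.1 (h.left₂ t ht)) (kap_pos hα hm hm2)
  rw [Q_kap hα hm hm2]
  have := F_at_S₂ hα hm h0 h12 hT h t ht
  unfold F at this
  field_simp
  linarith

/-- and that of the first shock is given by `Φ`. -/
lemma Phi_tau_S₁ (hα : 1 < α) (hm : 0 < m₁) (h0 : 0 < ρ₁) (h12 : ρ₁ < ρ₂)
    (hT : 0 < T) (h : IsTwoBump α ρ₁ ρ₂ m₁ m₂ (Ioo 0 T) S₁ S₂) :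
    ∀ t ∈ Ioo 0 T, Phi α (tau α ρ₂ m₁ t (S₁ t)) = q α ρ₁ ρ₂ m₁ t := by
  intro t ht
  have h1 := L_sub_F (ρ₁ := ρ₁) (ρ₂ := ρ₂) hα hm ht.1 (S₁ t)
  rw [L_eq_F hα hm h0 h12 hT h t ht, sub_self] at h1
  have := (mul_eq_zero.1 h1.symm).resolve_left hm.ne'
  linarith

lemma tau_lt_iff (hα : 1 < α) (hm : 0 < m₁) (ht : 0 < t) {r s : ℝ} :
    tau α ρ₂ m₁ t r < tau α ρ₂ m₁ t s ↔ r < s := by
  unfold tau
  have : 0 < α * m₁ * t ^ (1 / α) :=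
    mul_pos (mul_pos (by linarith) hm) (Real.rpow_pos_of_pos ht _)
  rw [div_lt_div_iff_of_pos_right this]
  constructor <;> intro h <;> linarith

lemma tau_inj (hα : 1 < α) (hm : 0 < m₁) (ht : 0 < t) {r s : ℝ}
    (h : tau α ρ₂ m₁ t r = tau α ρ₂ m₁ t s) : r = s := by
  rcases lt_trichotomy r s with h1 | h1 | h1
  · exact absurd h ((tau_lt_iff hα hm ht).2 h1).ne
  · exact h1
  · exact absurd h ((tau_lt_iff hα hm ht).2 h1).ne'

/-- A two-bump solution whose shocks have not merged before time `T` has `T ≤ mergeTime`. -/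
lemma le_mergeTime (hα : 1 < α) (hm : 0 < m₁) (hm2 : 0 < m₂) (h0 : 0 < ρ₁) (h12 : ρ₁ < ρ₂)
    (hT : 0 < T) (h : IsTwoBump α ρ₁ ρ₂ m₁ m₂ (Ioo 0 T) S₁ S₂) :
    T ≤ mergeTime α ρ₁ ρ₂ m₁ m₂ := by
  have hM := mergeTime_pos hα h12 hm hm2
  by_contra hlt
  push Not at hlt
  set M := mergeTime α ρ₁ ρ₂ m₁ m₂ with hMdef
  have hMI : M ∈ Ioo 0 T := ⟨hM, hlt⟩
  have h1 := (tau_lt_iff (ρ₂ := ρ₂) hα hm hM).2 (h.lt M hMI)
  rw [tau_S₂ hα hm hm2 h0 h12 hT h M hMI] at h1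
  have h2 := Phi_strictAnti hα h1
  rw [Phi_tau_S₁ hα hm h0 h12 hT h M hMI, hMdef, q_mergeTime hα h12 hm hm2] at h2
  exact lt_irrefl _ h2

/-- Uniqueness. -/
lemma uniq (hα : 1 < α) (hm : 0 < m₁) (hm2 : 0 < m₂) (h0 : 0 < ρ₁) (h12 : ρ₁ < ρ₂)
    {T' : ℝ} (hT : 0 < T) (hT' : 0 < T') {R₁ R₂ : ℝ → ℝ}
    (h : IsTwoBump α ρ₁ ρ₂ m₁ m₂ (Ioo 0 T) S₁ S₂)
    (h' : IsTwoBump α ρ₁ ρ₂ m₁ m₂ (Ioo 0 T') R₁ R₂) :
    ∀ t ∈ Ioo 0 T, t ∈ Ioo 0 T' → S₁ t = R₁ t ∧ S₂ t = R₂ t := by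
  intro t ht ht'
  constructor
  · apply tau_inj (ρ₂ := ρ₂) hα hm ht.1
    apply (Phi_strictAnti hα).injective
    rw [Phi_tau_S₁ hα hm h0 h12 hT h t ht, Phi_tau_S₁ hα hm h0 h12 hT' h' t ht']
  · apply tau_inj (ρ₂ := ρ₂) hα hm ht.1
    rw [tau_S₂ hα hm hm2 h0 h12 hT h t ht, tau_S₂ hα hm hm2 h0 h12 hT' h' t ht']

end

end Pool.Agent.Q194.TwoBump
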